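import Pool.Agent.helper64.NQ.Spec

/-!
# NQ, row CNA: the number of invariant characters, abelian image (statement by helper64)
-/

set_option autoImplicit false

namespace Pool.Agent.NQ

open Pool.Agent.helper58.DC Pool.Agent.DI Pool.Agent.DR

theorem CNA_om {Q : Type} [Group Q] {V : Subgroup Q} (α : Q → Q → ℂˣ) (y z : V) :
    om (fun a b : V => α a b)⁻¹ y z = (om α (y : Q) (z : Q))⁻¹ := by
  change (α (y : Q) (z : Q))⁻¹ * ((α (z : Q) (y : Q))⁻¹)⁻¹ =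
    (α (y : Q) (z : Q) * (α (z : Q) (y : Q))⁻¹)⁻¹
  rw [mul_inv]

theorem CNA_om' {Q : Type} [Group Q] (α : Q → Q → ℂˣ) (y z : Q) :
    (om α y z)⁻¹ = om α z y := by
  change (α y z * (α z y)⁻¹)⁻¹ = α z y * (α y z)⁻¹
  rw [mul_inv, inv_inv, mul_comm]

theorem CNA_KQ {Q : Type} [Group Q] (N V : Subgroup Q) (α : Q → Q → ℂˣ) :
    KQ (N.subgroupOf V) (om (fun a b : V => α a b)⁻¹) = KQ (N ⊓ V) (om α) := by
  unfold KQ
  refine finsum_mem_eq_of_bijOn (fun x : V × V => ((x.2 : Q), (x.1 : Q))) ⟨?_, ?_, ?_⟩ ?_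
  · rintro ⟨x, y⟩ ⟨hx, hy⟩
    exact ⟨⟨hy, y.2⟩, ⟨hx, x.2⟩⟩
  · rintro ⟨x, y⟩ _ ⟨x', y'⟩ _ h
    have h1 : (y : Q) = y' := congrArg Prod.fst h
    have h2 : (x : Q) = x' := congrArg Prod.snd h
    exact Prod.ext (Subtype.ext h2) (Subtype.ext h1)
  · rintro ⟨a, b⟩ ⟨ha, hb⟩
    exact ⟨(⟨b, hb.2⟩, ⟨a, ha.2⟩), ⟨hb.1, ha.1⟩, rfl⟩
  · rintro ⟨x, y⟩ _
    change ((om (fun a b : V => α a b)⁻¹ x y : ℂˣ) : ℂ) = ((om α (y : Q) (x : Q) : ℂˣ) : ℂ)
    rw [CNA_om, CNA_om']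

theorem CNA_card {Q : Type} [Group Q] (N V : Subgroup Q) :
    Nat.card (N.subgroupOf V) = Nat.card (N ⊓ V : Subgroup Q) := by
  rw [← Subgroup.subgroupOf_map_subtype N V]
  exact Nat.card_congr ((N.subgroupOf V).equivMapOfInjective V.subtype
    V.subtype_injective).toEquiv

open Classical in
theorem CNA (hCN0 : CN0_stmt) (hPEX : PEX_stmt) (hINR : INR_stmt) (hGNA : GNA_stmt)
    (hTIN : TIN_stmt) (hB13 : B13_stmt) : CNA_stmt := by
  intro Γ Q _ _ _ _ q S ψ hψ hinv α hA hc N hN p _ hp hrad d D hd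
  obtain ⟨q', hq'⟩ : ∃ q' : S →* (S.map q), ∀ x, ((q' x : S.map q) : Q) = q x :=
    ⟨q.subgroupMap S, fun _ => rfl⟩
  have hsurj : (⊤ : Subgroup S).map q' = ⊤ := by
    rw [eq_top_iff]
    rintro ⟨y, hy⟩ _
    obtain ⟨x, hx, hxy⟩ := hy
    exact ⟨⟨x, hx⟩, Subgroup.mem_top _, Subtype.ext ((hq' _).trans hxy)⟩
  have hker : ∀ x : S, x ∈ (⊤ ⊓ q'.ker : Subgroup S) ↔ (x : Γ) ∈ S ⊓ q.ker := by
    intro x
    rw [Subgroup.mem_inf, Subgroup.mem_inf, MonoidHom.mem_ker, MonoidHom.mem_ker]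
    constructor
    · rintro ⟨_, h⟩
      refine ⟨x.2, ?_⟩
      rw [← hq', h]
      rfl
    · rintro ⟨_, h⟩
      refine ⟨Subgroup.mem_top _, Subtype.ext ?_⟩
      rw [hq', h]
      rfl
  have hmap : (⊤ ⊓ q'.ker : Subgroup S).map S.subtype = S ⊓ q.ker := by
    ext x
    rw [Subgroup.mem_map]
    constructor
    · rintro ⟨y, hy, rfl⟩
      exact (hker y).1 hy
    · intro hx
      exact ⟨⟨x, hx.1⟩, (hker ⟨x, hx.1⟩).2 hx, rfl⟩
  obtain ⟨b1, b2, b3, b4, b5, b6⟩ := hB13 S Γ p S.subtype S.subtype_injective (⊤ ⊓ q'.ker)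
  have hext : ext0 S.subtype (fun x : S => ψ x) = ψ := by
    funext g
    by_cases hg : g ∈ S
    · exact (b1 (fun x : S => ψ x)).1 ⟨g, hg⟩
    · rw [(b1 (fun x : S => ψ x)).2 g (by rwa [Subgroup.range_subtype])]
      exact (hψ.1 g fun h => hg h.1).symm
  have hψ' : (fun x : S => ψ x) ∈ IrrOn (⊤ ⊓ q'.ker : Subgroup S) := by
    rw [b2, hext, hmap]
    exact hψ
  have hd' : Defect p (⊤ ⊓ q'.ker : Subgroup S) (fun x : S => ψ x) d := by
    rw [b5, hext, hmap]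
    exact hd
  have hcoc := hCN0 Γ Q q S ψ hψ α hA
  have hα' : (fun a b : S.map q => α a b) ∈ Coc (S.map q) := by
    refine ⟨fun a b c => ?_, fun a => ?_, fun a => ?_⟩
    · exact hcoc.1 a a.2 b b.2 c c.2
    · exact (hcoc.2 a a.2).1
    · exact (hcoc.2 a a.2).2
  have hA' : Asc (⊤ : Subgroup S) q' (fun x : S => ψ x) (fun a b : S.map q => α a b) := by
    obtain ⟨W, i1, i2, i3, T, hT⟩ := hA
    refine ⟨W, i1, i2, i3, fun s => T s, ?_, ?_, ?_⟩
    · exact hT.one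
    · intro s _ s' _
      have h := hT.mul s s.2 s' s'.2
      rw [← hq', ← hq'] at h
      exact h
    · intro h hh
      exact hT.tr h ((hker h).1 hh)
  have hinv' : ∀ s ∈ (⊤ : Subgroup S), funMap (MulAut.conj s) (fun x : S => ψ x) =
      fun x : S => ψ x := by
    intro s _
    funext g
    have h := congrFun (hinv s s.2) (g : Γ)
    exact h
  have hNn : (N.subgroupOf (S.map q)).Normal := Subgroup.Normal.subgroupOf hN _
  have h1 := hTIN S (S.map q) q' ⊤ hsurj (fun x : S => ψ x) hψ' (fun a b : S.map q => α a b) hα'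
    hA' (N.subgroupOf (S.map q)) hNn p d D hd'
  have h2 := hINR Γ p S (S ⊓ N.comap q) S (S ⊓ q.ker) inf_le_left le_rfl inf_le_left ψ D
  have e1 : (S ⊓ N.comap q).subgroupOf S =
      (⊤ ⊓ (N.subgroupOf (S.map q)).comap q' : Subgroup S) := by
    ext x
    rw [Subgroup.mem_subgroupOf, Subgroup.mem_inf, Subgroup.mem_inf, Subgroup.mem_comap,
      Subgroup.mem_comap, Subgroup.mem_subgroupOf, hq']
    exact ⟨fun h => ⟨Subgroup.mem_top _, h.2⟩, fun h => ⟨x.2, h.2⟩⟩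
  have e2 : (S ⊓ q.ker).subgroupOf S = (⊤ ⊓ q'.ker : Subgroup S) := by
    ext x
    rw [Subgroup.mem_subgroupOf]
    exact (hker x).symm
  rw [e1, e2, Subgroup.subgroupOf_self] at h2
  have hcard := CNA_card N (S.map q)
  have hp' : ¬ p ∣ Nat.card (N.subgroupOf (S.map q)) := by
    rw [hcard]
    exact hp
  have hcomm : ∀ x y : S.map q, x * y = y * x := fun x y => Subtype.ext (hc x x.2 y y.2)
  have hex := hPEX S (S.map q) q' ⊤ hsurj (fun x : S => ψ x) hψ' hinv'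
    (fun a b : S.map q => α a b) hα' hA' (N.subgroupOf (S.map q))
  have h3 := hGNA (S.map q) hcomm (N.subgroupOf (S.map q)) (fun a b : S.map q => α a b)⁻¹
    ((Coc (S.map q)).inv_mem hα') hex (by
      rintro z ⟨hz1, hz2⟩ v
      rw [CNA_om, inv_eq_one]
      refine hrad z ⟨⟨hz1, z.2⟩, ?_⟩ v v.2
      intro y hy
      have h := hz2 ⟨y, hy.2⟩ hy.1
      rw [CNA_om, inv_eq_one] at h
      exact h) p hp' (d - D)
  have hv : padicValNat p (Nat.card (N.subgroupOf (S.map q))) = 0 :=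
    padicValNat.eq_zero_of_not_dvd hp'
  have e3 : (fun k : ℕ => (padicValNat p k : ℤ) =
      d + (padicValNat p (Nat.card (N.subgroupOf (S.map q))) : ℤ) - D) =
      fun k : ℕ => (padicValNat p k : ℤ) = d - D := by
    funext k
    rw [hv, Nat.cast_zero, add_zero]
  rw [e3, h2] at h1
  rw [CNA_KQ, hcard, ← h1] at h3
  rw [h3]
  by_cases hdD : d = D
  · rw [if_pos (sub_eq_zero.2 hdD), if_pos hdD]
  · rw [if_neg (fun h => hdD (sub_eq_zero.1 h)), if_neg hdD]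

end Pool.Agent.NQ
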