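import Pool.Agent.helper64.NQ.Spec

/-!
# NQ, row NZ2 (statement by helper64)
-/

set_option autoImplicit false

namespace Pool.Agent.NQ

open Pool.Agent.helper58.DC Pool.Agent.DI Pool.Agent.DR

theorem NZ2_sqf (m : ℕ) : Squarefree (∏ r ∈ m.primeFactors, r) := by
  refine Finset.squarefree_prod_of_pairwise_isCoprime ?_ ?_
  · intro a ha b hb hab
    exact Nat.coprime_iff_isRelPrime.1 ((Nat.coprime_primes (Nat.prime_of_mem_primeFactors ha)
      (Nat.prime_of_mem_primeFactors hb)).2 hab)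
  · intro a ha
    exact (Nat.prime_of_mem_primeFactors ha).prime.squarefree

theorem NZ2 (hNZA : NZA_stmt) (hNZB : NZB_stmt) (hNZC : NZC_stmt) : NZ2_stmt := by
  intro p hp A _ _ hnil hred hpA
  have hne : ∀ r : ℕ, r.Prime → ∀ z : A, z ≠ 1 → z ^ r = 1 → r ≠ p := by
    intro r hr z hz hzr h
    apply hpA
    have h1 : orderOf z = r := orderOf_eq_prime hzr hz (hp := ⟨hr⟩)
    rw [← h, ← h1]
    exact orderOf_dvd_natCard z
  obtain ⟨hc, hexp⟩ := hNZB A hnil (by
    intro r hr z hzc hz hzr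
    exact (hNZA p A hred r hr (hne r hr z hz hzr) z hzc hz hzr).2)
  refine ⟨∏ r ∈ (Nat.card A).primeFactors, r, NZ2_sqf _, ?_, hc, ?_, hexp⟩
  · intro h
    obtain ⟨r, hr, hpr⟩ := (Nat.Prime.prime hp.out).exists_mem_finset_dvd h
    have hr' := Nat.prime_of_mem_primeFactors hr
    have h1 : p = r := (Nat.prime_dvd_prime_iff_eq hp.out hr').1 hpr
    apply hpA
    rw [h1]
    exact Nat.dvd_of_mem_primeFactors hr
  · refine hNZC A hc _ (NZ2_sqf _) hexp ?_
    intro r hr
    rw [Nat.primeFactors_prod fun q hq => Nat.prime_of_mem_primeFactors hq] at hr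
    have hr' := Nat.prime_of_mem_primeFactors hr
    haveI : Fact r.Prime := ⟨hr'⟩
    obtain ⟨z, hz⟩ := exists_prime_orderOf_dvd_card' r (Nat.dvd_of_mem_primeFactors hr)
    have hz1 : z ≠ 1 := by
      intro h
      rw [h, orderOf_one] at hz
      exact hr'.one_lt.ne hz
    have hzr : z ^ r = 1 := by
      rw [← hz]
      exact pow_orderOf_eq_one z
    exact (hNZA p A hred r hr' (hne r hr' z hz1 hzr) z (fun a => hc a z) hz1 hzr).1

end Pool.Agent.NQ
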